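import Pool.Agent.Work.MP_540755_al.AllK

namespace Pool.Agent.Results.MP_540755_al.AllK

open FreeAlgebra Pool.Agent.Work.MP_540755_al

/-- For all `k ≥ 4` and `n ≥ 2`: in `A_{n+2} = ℂ⟨x_0, …, x_{n+1}⟩`, for the derivation
`δ(x_i) = [x_n, x_{n+1}] x_i`, there is an element `a ∈ L_k` of multidegree `(k-1, 2, 0, …, 0)`
whose class in `B_k = L_k/L_{k+1}` is nonzero and is sent to zero by the map induced by `δ`. -/
theorem result (k n : ℕ) (hk : 4 ≤ k) (hn : 2 ≤ n) :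
    ∃ δ : FreeAlgebra ℂ (Fin (n + 2)) →ₗ[ℂ] FreeAlgebra ℂ (Fin (n + 2)),
      (∀ a b, δ (a * b) = δ a * b + a * δ b) ∧
      (∀ i : Fin (n + 2), δ (ι ℂ i) =
        (ι ℂ (Fin.last n).castSucc * ι ℂ (Fin.last (n + 1)) -
          ι ℂ (Fin.last (n + 1)) * ι ℂ (Fin.last n).castSucc) * ι ℂ i) ∧
      ∃ a ∈ multiDeg (n + 2) fun i => if i.val = 0 then k - 1 else if i.val = 1 then 2 else 0,
        a ∈ lcs (n + 2) k ∧ a ∉ lcs (n + 2) (k + 1) ∧ δ a ∈ lcs (n + 2) (k + 1) := by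
  obtain ⟨j, rfl⟩ : ∃ j, k = j + 4 := ⟨k - 4, by omega⟩
  obtain ⟨m, rfl⟩ : ∃ m, n = m + 2 := ⟨n - 2, by omega⟩
  refine ⟨derG (FF m cc), derG_mul _, fun i => ?_, FF m (aK j), aK_deg m j,
    FF_lcs m (j + 3) _ (aK_mem j), not_mem m j, ?_⟩
  · rw [derG_gen, cc, map_sub, map_mul, map_mul, FF_gen, FF_gen]
    rfl
  · rw [derG_FF]
    exact FF_lcs m (j + 4) _ (aK_der j)

end Pool.Agent.Results.MP_540755_al.AllK
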